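import Pool.Agent.H.MP_fd4af6_gt.D

open Set Complex MeasureTheory Filter Topology
open scoped Real ContDiff ENNReal

namespace Pool.Agent.Results.MP_fd4af6_gt.Holds

/-- A billiard table, as the counterclockwise arc-length parametrization `γ : ℝ → ℂ` (1-periodic,
smooth, simple, unit speed, positive curvature) of the boundary of a convex body. -/
def IsTable (γ : ℝ → ℂ) : Prop :=
  ContDiff ℝ ∞ γ ∧ Function.Periodic γ 1 ∧ InjOn γ (Ico 0 1) ∧ (∀ q, ‖deriv γ q‖ = 1) ∧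
    (∀ q, 0 < ((starRingEnd ℂ) (deriv γ q) * deriv (deriv γ) q).im) ∧
    ∃ K : Set ℂ, Convex ℝ K ∧ IsCompact K ∧ (interior K).Nonempty ∧ range γ = frontier K

/-- The geometric distance: infimum over smooth homotopies through billiard tables. -/
noncomputable def dB (α β : ℝ → ℂ) : ℝ≥0∞ :=
  ⨅ (Γ : ℝ → ℝ → ℂ) (_ : ContDiff ℝ ∞ fun p : ℝ × ℝ => Γ p.1 p.2) (_ : Γ 0 = α) (_ : Γ 1 = β)
    (_ : ∀ s ∈ Icc (0 : ℝ) 1, IsTable (Γ s)),
    ∫⁻ s in Icc (0 : ℝ) 1, ⨆ q : ℝ, ‖deriv (fun s => Γ s q) s‖ₑ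

/-- A continuous simple closed curve of length 1, parametrized by arc length, bounding a convex
set `K`, and counterclockwise (winding number `+1` around an interior point of `K`). -/
def IsConvexCurve (C : ℝ → ℂ) : Prop :=
  Continuous C ∧ Function.Periodic C 1 ∧ InjOn C (Ico 0 1) ∧
    (∀ a b, a ≤ b → eVariationOn C (Icc a b) = ENNReal.ofReal (b - a)) ∧
    ∃ K : Set ℂ, Convex ℝ K ∧ range C = frontier K ∧ ∃ o ∈ interior K, ∃ φ : ℝ → ℝ,
      Continuous φ ∧ (∀ q, C q - o = ‖C q - o‖ * exp (φ q * I)) ∧ φ 1 = φ 0 + 2 * π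

open Pool.Agent.H.MP_fd4af6_gt

attribute [local irreducible] Gm

lemma dB_le0 (Γ : ℝ → ℝ → ℂ) (h1 : ContDiff ℝ ∞ fun p : ℝ × ℝ => Γ p.1 p.2)
    (h2 : ∀ s, IsTable (Γ s)) (M : ℝ)
    (h3 : ∀ s ∈ Icc (0 : ℝ) 1, ∀ q, ‖deriv (fun s => Γ s q) s‖ ≤ M) :
    dB (Γ 0) (Γ 1) ≤ ENNReal.ofReal M := by
  unfold dB
  refine iInf_le_of_le Γ (iInf_le_of_le h1 (iInf_le_of_le rfl (iInf_le_of_le rfl
    (iInf_le_of_le (fun s _ => h2 s) ?_))))
  calc _ ≤ ∫⁻ _ in Icc (0 : ℝ) 1, ENNReal.ofReal M := by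
        apply setLIntegral_mono' measurableSet_Icc
        intro s hs
        refine iSup_le fun q => ?_
        rw [← ofReal_norm]
        exact ENNReal.ofReal_le_ofReal (h3 s hs q)
    _ = _ := by simp

lemma tb {θ : ℝ → ℝ} (hθ : Monotone θ) (hz : ∫ x in (0 : ℝ)..1, e (-θ x) = 0) (c : ℂ)
    {r : ℝ} (h0 : 0 < r) (h1 : r < 1) : IsTable (Gm θ c r) := by
  unfold IsTable
  exact Gm_table hθ hz c h0 h1

lemma dB_le {θ : ℝ → ℝ} (hθ : Monotone θ) (hz : ∫ x in (0 : ℝ)..1, e (-θ x) = 0) (c : ℂ) :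
    ∃ M : ℝ, 0 < M ∧ ∀ a b : ℝ, 0 < a → a ≤ 1 / 2 → 0 < b → b ≤ 1 / 2 →
      dB (Gm θ c (1 - a ^ 2)) (Gm θ c (1 - b ^ 2)) ≤ ENNReal.ofReal (M * |b - a|) := by
  have cS : ContDiff ℝ ∞ Real.smoothTransition := Real.smoothTransition.contDiff
  obtain ⟨M, hM⟩ := (isCompact_Icc.image (cS.continuous_deriv (by simp))
    (s := Icc 0 1)).isBounded.exists_pos_norm_le
  refine ⟨68 * M, by linarith [hM.1], fun a b a0 a1 b0 b1 => ?_⟩
  set σ : ℝ → ℝ := fun s => a + (b - a) * Real.smoothTransition s with hσ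
  have cσ : ContDiff ℝ ∞ σ := contDiff_const.add (contDiff_const.mul cS)
  have s0 : ∀ s, 0 < σ s := fun s => by
    have := Real.smoothTransition.nonneg s
    have := Real.smoothTransition.le_one s
    simp only [hσ]
    rcases le_total a b with h | h <;> nlinarith
  have s1 : ∀ s, σ s ≤ 1 / 2 := fun s => by
    have := Real.smoothTransition.nonneg s
    have := Real.smoothTransition.le_one s
    simp only [hσ]
    rcases le_total a b with h | h <;> nlinarith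
  have r0 : ∀ s, 0 < 1 - σ s ^ 2 := fun s => by nlinarith [s0 s, s1 s]
  have r1 : ∀ s, 1 - σ s ^ 2 < 1 := fun s => by nlinarith [s0 s]
  have cρ : ContDiff ℝ ∞ fun s => 1 - σ s ^ 2 := contDiff_const.sub (cσ.pow 2)
  have := dB_le0 (fun s => Gm θ c (1 - σ s ^ 2)) (cdGm hθ c cρ r0 r1)
    (fun s => tb hθ hz c (r0 s) (r1 s)) (68 * M * |b - a|) (by
      intro s hs q
      refine (Gm_speed hθ hz c cσ s0 s1 s q).trans ?_
      have d := ((((cS.differentiable (by simp)) s).hasDerivAt.const_mul (b - a)).const_add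
        a).deriv
      have := hM.2 _ ⟨s, hs, rfl⟩
      rw [hσ, d, abs_mul]
      rw [Real.norm_eq_abs] at this
      nlinarith [abs_nonneg (b - a)])
  have σ0 : σ 0 = a := by simp [hσ]
  have σ1 : σ 1 = b := by simp [hσ]
  simp only [σ0, σ1] at this
  exact this

theorem result (C : ℝ → ℂ) (hC : IsConvexCurve C) :
    ∃ α : ℕ → ℝ → ℂ, (∀ i, IsTable (α i)) ∧
      (∀ ε : ℝ≥0∞, 0 < ε → ∃ N, ∀ i, N ≤ i → ∀ j, N ≤ j → dB (α i) (α j) < ε) ∧
      TendstoUniformly α C atTop := by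
  obtain ⟨c1, c2, c3, c4, K, k1, k2, o, ho, φ, p1, p2, p3⟩ := hC
  obtain ⟨θ, hθ, hp, hI⟩ := tang C K o φ c1 c2 c3 k1 ho k2 p1 p2 p3 c4
  have hz : ∫ x in (0 : ℝ)..1, e (-θ x) = 0 := by
    have a := hI 1
    have b := c2 0
    rw [zero_add] at b
    have c : ∫ x in (0 : ℝ)..1, e (θ x) = 0 := by linear_combination b - a
    have d := conjCLE.toContinuousLinearMap.intervalIntegral_comp_comm (ii hθ _ cont_e 0 1)
    simpa [c, conj_e] using d
  set σ : ℕ → ℝ := fun i => 1 / ((i : ℝ) + 2) with hσ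
  have s0 : ∀ i, 0 < σ i := fun i => by positivity
  have s1 : ∀ i, σ i ≤ 1 / 2 := fun i =>
    one_div_le_one_div_of_le two_pos (by linarith [Nat.cast_nonneg (α := ℝ) i])
  have r0 : ∀ i, 0 < 1 - σ i ^ 2 := fun s => by nlinarith [s0 s, s1 s]
  have r1 : ∀ i, 1 - σ i ^ 2 < 1 := fun s => by nlinarith [s0 s]
  have st : Tendsto σ atTop (𝓝 0) :=
    tendsto_const_nhds.div_atTop (tendsto_natCast_atTop_atTop.atTop_add tendsto_const_nhds)
  refine ⟨fun i => Gm θ (C 0) (1 - σ i ^ 2), fun i => tb hθ hz _ (r0 i) (r1 i), ?_, ?_⟩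
  · intro ε hε
    obtain ⟨M, M0, hM⟩ := dB_le hθ hz (C 0)
    obtain ⟨δ, -, d0, d1⟩ := ENNReal.lt_iff_exists_real_btwn.1 hε
    have d2 : 0 < δ := ENNReal.ofReal_pos.1 d0
    obtain ⟨N, hN⟩ := eventually_atTop.1 (st.eventually (gt_mem_nhds (div_pos d2 M0)))
    refine ⟨N, fun i hi j hj => ((hM _ _ (s0 i) (s1 i) (s0 j) (s1 j)).trans
      (ENNReal.ofReal_le_ofReal ?_)).trans_lt d1⟩
    have : |σ j - σ i| ≤ δ / M := by
      rw [abs_le]; constructor <;> linarith [hN i hi, hN j hj, s0 i, s0 j]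
    rwa [le_div_iff₀' M0] at this
  · rw [Metric.tendstoUniformly_iff]
    intro ε hε
    obtain ⟨η, e0, e1, e2⟩ : ∃ η : ℝ, 0 < η ∧ η ≤ 1 ∧ η ≤ ε / 20 :=
      ⟨min 1 (ε / 20), lt_min one_pos (by linarith), min_le_left _ _, min_le_right _ _⟩
    have rt : Tendsto (fun i => 1 - σ i ^ 2) atTop (𝓝 1) := by
      simpa using (st.pow 2).const_sub 1
    have := (G_lim e0 (by linarith [Real.pi_gt_three])).comp rt
    filter_upwards [this.eventually (lt_mem_nhds (show 1 - η < 1 by linarith))] with i hi q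
    obtain ⟨y, hy, e3⟩ := (c2.sub (Gm_per hθ (C 0) (r0 i) (r1 i))).exists_mem_Ico₀ one_pos q
    have := Gm_close hθ hp hz (C 0) (r0 i) (r1 i) e0.le e0.le hi.le y hy.1 hy.2.le
    rw [← hI y, norm_sub_rev] at this
    rw [dist_eq_norm]
    simp only [Pi.sub_apply] at e3
    rw [e3]
    nlinarith [Real.pi_le_four]

end Pool.Agent.Results.MP_fd4af6_gt.Holds
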